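import Mathlib

/-!
# Counting the words accepted by a small automaton, and the binomial sums
-/

namespace Pool.Agent.Lib.MP_793dac_co

/-- Labels of the letters: `A`, `B`, `C` (both copies in run 1, 2, 3), `X` (one copy in each of the
runs 1 and 2), `Y` (one copy in each of the runs 2 and 3). -/
inductive Lab | A | B | C | X | Y
deriving DecidableEq

instance : Fintype Lab where
  elems := {.A, .B, .C, .X, .Y}
  complete := by intro x; cases x <;> simp

/-- States of the automaton. -/
inductive St | init | P | Q (a : Bool) | R (a b : Bool) | dead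
deriving DecidableEq

/-- Transitions. -/
def step : St → Lab → St
  | .init, .A => .P
  | .init, .X => .Q false
  | .P, .A => .P
  | .P, .B => .Q false
  | .P, .X => .Q false
  | .P, .Y => .R false false
  | .Q _, .A => .Q true
  | .Q a, .B => .Q a
  | .Q a, .C => .R a false
  | .Q a, .Y => .R a false
  | .R _ b, .A => .R true b
  | .R a _, .B => .R a true
  | .R a b, .C => .R a b
  | _, _ => .dead

/-- Accepted label words of length `n` from the state `s`. -/
def acc : ℕ → St → Finset (List Lab)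
  | 0, s => if s = .R true true then {[]} else ∅
  | n + 1, s => Finset.univ.biUnion (fun l : Lab => (acc n (step s l)).image (List.cons l))

lemma card_acc_succ (n : ℕ) (s : St) :
    (acc (n + 1) s).card = ∑ l : Lab, (acc n (step s l)).card := by
  rw [acc, Finset.card_biUnion]
  · refine Finset.sum_congr rfl (fun l _ => ?_)
    exact Finset.card_image_of_injective _ (List.cons_injective)
  · intro l _ l' _ hll
    rw [Function.onFun, Finset.disjoint_left]
    rintro ls h h'
    obtain ⟨a, -, rfl⟩ := Finset.mem_image.mp h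
    obtain ⟨b, -, hb⟩ := Finset.mem_image.mp h'
    exact hll (List.cons.inj hb).1.symm

lemma mem_acc (n : ℕ) (s : St) (ls : List Lab) :
    ls ∈ acc n s ↔ ls.length = n ∧ ls.foldl step s = .R true true := by
  induction n generalizing s ls with
  | zero =>
    rw [acc]
    split_ifs with h
    · rw [Finset.mem_singleton]
      constructor
      · rintro rfl; exact ⟨rfl, h⟩
      · rintro ⟨h1, -⟩; exact List.length_eq_zero_iff.mp h1
    · constructor
      · intro h'; exact absurd h' (Finset.notMem_empty _)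
      · rintro ⟨h1, h2⟩
        rw [List.length_eq_zero_iff.mp h1] at h2
        exact absurd h2 h
  | succ n ih =>
    rw [acc]
    simp only [Finset.mem_biUnion, Finset.mem_univ, true_and, Finset.mem_image]
    constructor
    · rintro ⟨l, ls', h, rfl⟩
      obtain ⟨h1, h2⟩ := (ih _ _).mp h
      exact ⟨by simp [h1], by simpa using h2⟩
    · rintro ⟨h1, h2⟩
      cases ls with
      | nil => simp at h1
      | cons l ls' =>
        refine ⟨l, ls', (ih _ _).mpr ⟨by simpa using h1, by simpa using h2⟩, rfl⟩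

lemma sum_lab (f : Lab → ℤ) : ∑ l : Lab, f l = f .A + f .B + f .C + f .X + f .Y := by
  have : (Finset.univ : Finset Lab) = {.A, .B, .C, .X, .Y} := rfl
  rw [this]
  simp [Finset.sum_insert]
  ring

/-- Number of accepted words, as an integer. -/
def N (n : ℕ) (s : St) : ℤ := ((acc n s).card : ℤ)

lemma N_succ (n : ℕ) (s : St) :
    N (n + 1) s = N n (step s .A) + N n (step s .B) + N n (step s .C) + N n (step s .X) +
      N n (step s .Y) := by
  unfold N
  rw [card_acc_succ]
  push_cast
  rw [sum_lab]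

lemma N_zero (s : St) : N 0 s = if s = .R true true then 1 else 0 := by
  unfold N
  rw [acc]
  split_ifs <;> simp

lemma N_dead (n : ℕ) : N n .dead = 0 := by
  induction n with
  | zero => rw [N_zero]; simp
  | succ n ih => rw [N_succ]; simp [step, ih]

lemma N_R11 (n : ℕ) : N n (.R true true) = 3 ^ n := by
  induction n with
  | zero => rw [N_zero]; simp
  | succ n ih => rw [N_succ]; simp only [step, ih, N_dead]; ring

lemma N_R10 (n : ℕ) : N n (.R true false) = 3 ^ n - 2 ^ n := by
  induction n with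
  | zero => rw [N_zero]; simp
  | succ n ih => rw [N_succ]; simp only [step, ih, N_dead, N_R11]; ring

lemma N_R01 (n : ℕ) : N n (.R false true) = 3 ^ n - 2 ^ n := by
  induction n with
  | zero => rw [N_zero]; simp
  | succ n ih => rw [N_succ]; simp only [step, ih, N_dead, N_R11]; ring

lemma N_R00 (n : ℕ) : N n (.R false false) = 3 ^ n - 2 * 2 ^ n + 1 := by
  induction n with
  | zero => rw [N_zero]; simp
  | succ n ih => rw [N_succ]; simp only [step, ih, N_dead, N_R10, N_R01]; ring

lemma N_Q1 (n : ℕ) : N n (.Q true) = 2 * 3 ^ n - 2 * 2 ^ n - n * 2 ^ n := by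
  induction n with
  | zero => rw [N_zero]; simp
  | succ n ih => rw [N_succ]; simp only [step, ih, N_dead, N_R10]; push_cast; ring

lemma N_Q0 (n : ℕ) : N n (.Q false) = 2 * 3 ^ n - (n + 4) * 2 ^ n + 2 * n + 2 := by
  induction n with
  | zero => rw [N_zero]; simp
  | succ n ih => rw [N_succ]; simp only [step, ih, N_dead, N_R00, N_Q1]; push_cast; ring

lemma N_P (n : ℕ) : 2 * N n .P = 5 * 3 ^ n - (4 * n + 12) * 2 ^ n + 4 * n ^ 2 + 6 * n + 7 := by
  induction n with
  | zero => rw [N_zero]; simp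
  | succ n ih =>
    rw [N_succ]; simp only [step, N_dead, N_R00, N_Q0]; push_cast
    linear_combination ih

lemma N_init (n : ℕ) : 2 * N (n + 1) .init =
    9 * 3 ^ n - (6 * n + 20) * 2 ^ n + 4 * n ^ 2 + 10 * n + 11 := by
  rw [N_succ]; simp only [step, N_dead, N_Q0]
  linear_combination N_P n

/-! ### Binomial sums -/

lemma sum_Icc_two (M : ℕ) : (∑ j ∈ Finset.Icc 2 M, (M.choose j : ℤ)) = 2 ^ M - 1 - M := by
  have h := Nat.sum_range_choose M
  have h' : (∑ j ∈ Finset.range (M + 1), (M.choose j : ℤ)) = 2 ^ M := by exact_mod_cast h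
  rcases M with _ | _ | M
  · simp
  · simp
  · have hsplit : Finset.range (M + 2 + 1) = insert 0 (insert 1 (Finset.Icc 2 (M + 2))) := by
      ext x
      simp only [Finset.mem_range, Finset.mem_insert, Finset.mem_Icc]
      omega
    rw [hsplit, Finset.sum_insert (by simp), Finset.sum_insert (by simp)] at h'
    simp only [Nat.choose_zero_right, Nat.choose_one_right] at h'
    push_cast at h' ⊢
    linarith

/-- first binomial sum -/
def F (N k : ℕ) : ℤ := (N.choose k : ℤ) * ∑ j ∈ Finset.Icc 2 (N - k), ((N - k).choose j : ℤ)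

lemma sum_choose_two_pow (N : ℕ) :
    (∑ k ∈ Finset.range (N + 1), (N.choose k : ℤ) * 2 ^ (N - k)) = 3 ^ N := by
  have h := add_pow (1 : ℤ) 2 N
  norm_num at h
  rw [h]
  refine Finset.sum_congr rfl (fun k _ => ?_)
  ring

lemma sum_choose_two_pow' (N : ℕ) :
    (∑ k ∈ Finset.range (N + 1), (N.choose k : ℤ) * 2 ^ k) = 3 ^ N := by
  have h := add_pow (2 : ℤ) 1 N
  norm_num at h
  rw [h]
  refine Finset.sum_congr rfl (fun k _ => ?_)
  ring

lemma sum_choose_id (N : ℕ) :
    2 * (∑ k ∈ Finset.range (N + 1), (N.choose k : ℤ) * (N - k)) = N * 2 ^ N := by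
  have h := Nat.sum_range_choose N
  have h' : (∑ j ∈ Finset.range (N + 1), (N.choose j : ℤ)) = 2 ^ N := by exact_mod_cast h
  have h2 : (∑ k ∈ Finset.range (N + 1), (N.choose k : ℤ) * (N - k)) =
      ∑ k ∈ Finset.range (N + 1), (N.choose k : ℤ) * k := by
    rw [← Finset.sum_range_reflect]
    refine Finset.sum_congr rfl (fun k hk => ?_)
    have hk' : k ≤ N := by
      have := Finset.mem_range.mp hk; omega
    have e1 : N + 1 - 1 - k = N - k := by omega
    rw [e1, Nat.choose_symm hk', Nat.cast_sub hk']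
    ring
  have h3 : (∑ k ∈ Finset.range (N + 1), (N.choose k : ℤ) * (N - k)) +
      ∑ k ∈ Finset.range (N + 1), (N.choose k : ℤ) * k = N * 2 ^ N := by
    rw [← Finset.sum_add_distrib, ← h', Finset.mul_sum]
    refine Finset.sum_congr rfl (fun k _ => ?_)
    ring
  linarith

lemma sum_F_range (N : ℕ) : 2 * (∑ k ∈ Finset.range (N + 1), F N k) =
    2 * 3 ^ N - 2 * 2 ^ N - N * 2 ^ N := by
  have h : ∀ k ∈ Finset.range (N + 1), F N k =
      (N.choose k : ℤ) * 2 ^ (N - k) - (N.choose k : ℤ) - (N.choose k : ℤ) * (N - k) := by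
    intro k hk
    have hk' : k ≤ N := by
      have := Finset.mem_range.mp hk; omega
    unfold F
    rw [sum_Icc_two, Nat.cast_sub hk']
    ring
  rw [Finset.sum_congr rfl h, Finset.sum_sub_distrib, Finset.sum_sub_distrib,
    sum_choose_two_pow]
  have h1 := sum_choose_id N
  have h' : (∑ j ∈ Finset.range (N + 1), (N.choose j : ℤ)) = 2 ^ N := by
    exact_mod_cast Nat.sum_range_choose N
  rw [h']
  linarith

lemma F_zero (N : ℕ) : F N 0 = 2 ^ N - 1 - N := by
  unfold F
  rw [sum_Icc_two]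
  simp

lemma F_one (N : ℕ) (hN : 1 ≤ N) : 2 * F N 1 = N * 2 ^ N - 2 * (N : ℤ) ^ 2 := by
  unfold F
  rw [sum_Icc_two, Nat.cast_sub hN]
  obtain ⟨M, rfl⟩ : ∃ M, N = M + 1 := ⟨N - 1, by omega⟩
  simp only [Nat.choose_one_right, Nat.add_sub_cancel]
  push_cast
  ring

lemma sum_F_one (N : ℕ) : 2 * (∑ k ∈ Finset.Icc 1 N, F N k) =
    2 * 3 ^ N - 4 * 2 ^ N - N * 2 ^ N + 2 * N + 2 := by
  have hsplit : Finset.range (N + 1) = insert 0 (Finset.Icc 1 N) := by
    ext x
    simp only [Finset.mem_range, Finset.mem_insert, Finset.mem_Icc]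
    omega
  have h := sum_F_range N
  rw [hsplit, Finset.sum_insert (by simp), F_zero] at h
  linarith

lemma sum_F_two (N : ℕ) : 2 * (∑ k ∈ Finset.Icc 2 N, F N k) =
    2 * 3 ^ N - 4 * 2 ^ N - 2 * N * 2 ^ N + 2 * (N : ℤ) ^ 2 + 2 * N + 2 := by
  rcases Nat.eq_zero_or_pos N with h0 | h0
  · subst h0; simp
  · have hsplit : Finset.Icc 1 N = insert 1 (Finset.Icc 2 N) := by
      ext x
      simp only [Finset.mem_insert, Finset.mem_Icc]
      omega
    have h := sum_F_one N
    rw [hsplit, Finset.sum_insert (by simp)] at h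
    have h1 := F_one N h0
    linarith

/-- third binomial sum -/
def H (N k : ℕ) : ℤ := (2 ^ k - 4) * (N.choose k : ℤ)

lemma sum_H (N : ℕ) : (∑ k ∈ Finset.Icc 3 N, H N k) = 3 ^ N - 4 * 2 ^ N + 2 * N + 3 := by
  have hr : (∑ k ∈ Finset.range (N + 1), H N k) = 3 ^ N - 4 * 2 ^ N := by
    have h1 := sum_choose_two_pow' N
    have h' : (∑ j ∈ Finset.range (N + 1), (N.choose j : ℤ)) = 2 ^ N := by
      exact_mod_cast Nat.sum_range_choose N
    rw [← h1, ← h', Finset.mul_sum, ← Finset.sum_sub_distrib]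
    refine Finset.sum_congr rfl (fun k _ => ?_)
    unfold H; ring
  rcases N with _ | _ | _ | N
  · simp
  · simp
  · simp
  · have hsplit : Finset.range (N + 3 + 1) =
        insert 0 (insert 1 (insert 2 (Finset.Icc 3 (N + 3)))) := by
      ext x
      simp only [Finset.mem_range, Finset.mem_insert, Finset.mem_Icc]
      omega
    have h0 : H (N + 1 + 1 + 1) 0 = -3 := by simp [H]
    have h1 : H (N + 1 + 1 + 1) 1 = -2 * (N + 3) := by
      simp only [H, Nat.choose_one_right]; push_cast; ring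
    have h2 : H (N + 1 + 1 + 1) 2 = 0 := by simp [H]
    rw [hsplit, Finset.sum_insert (by simp), Finset.sum_insert (by simp),
      Finset.sum_insert (by simp), h0, h1, h2] at hr
    push_cast at hr ⊢
    linarith

/-- The corrected right-hand side. -/
def rhs (n : ℕ) : ℕ :=
  2 * (∑ k ∈ Finset.Icc 1 (n - 1), (n - 1).choose k *
      ∑ j ∈ Finset.Icc 2 (n - 1 - k), (n - 1 - k).choose j) +
    2 * (∑ k ∈ Finset.Icc 2 (n - 1), (n - 1).choose k *
      ∑ j ∈ Finset.Icc 2 (n - 1 - k), (n - 1 - k).choose j) +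
    ∑ k ∈ Finset.Icc 3 (n - 1), (2 ^ (k - 1) - 2) * (n - 1).choose k

lemma rhs_cast (N : ℕ) : 2 * (rhs (N + 1) : ℤ) =
    9 * 3 ^ N - (6 * N + 20) * 2 ^ N + 4 * N ^ 2 + 10 * N + 11 := by
  have e1 : (((∑ k ∈ Finset.Icc 1 N, N.choose k *
      ∑ j ∈ Finset.Icc 2 (N - k), (N - k).choose j) : ℕ) : ℤ) = ∑ k ∈ Finset.Icc 1 N, F N k := by
    push_cast; rfl
  have e2 : (((∑ k ∈ Finset.Icc 2 N, N.choose k *
      ∑ j ∈ Finset.Icc 2 (N - k), (N - k).choose j) : ℕ) : ℤ) = ∑ k ∈ Finset.Icc 2 N, F N k := by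
    push_cast; rfl
  have e3 : 2 * (((∑ k ∈ Finset.Icc 3 N, (2 ^ (k - 1) - 2) * N.choose k) : ℕ) : ℤ) =
      ∑ k ∈ Finset.Icc 3 N, H N k := by
    push_cast
    rw [Finset.mul_sum]
    refine Finset.sum_congr rfl (fun k hk => ?_)
    have hk3 : 3 ≤ k := (Finset.mem_Icc.mp hk).1
    obtain ⟨m, rfl⟩ : ∃ m, k = m + 1 := ⟨k - 1, by omega⟩
    have h4 : 2 ≤ 2 ^ m := by
      calc 2 = 2 ^ 1 := by norm_num
        _ ≤ 2 ^ m := Nat.pow_le_pow_right (by norm_num) (by omega)
    rw [Nat.add_sub_cancel, Nat.cast_sub h4]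
    unfold H
    push_cast
    ring
  unfold rhs
  rw [Nat.add_sub_cancel, Nat.cast_add, Nat.cast_add, Nat.cast_mul, Nat.cast_mul, e1, e2]
  have h1 := sum_F_one N
  have h2 := sum_F_two N
  have h3 := sum_H N
  rw [← e3] at h3
  push_cast at h3 ⊢
  linarith

theorem card_acc_init (n : ℕ) (hn : 1 ≤ n) : (acc n .init).card = rhs n := by
  obtain ⟨N', rfl⟩ : ∃ N', n = N' + 1 := ⟨n - 1, by omega⟩
  have h1 := N_init N'
  have h2 := rhs_cast N'
  have h3 : 2 * N (N' + 1) .init = 2 * (rhs (N' + 1) : ℤ) := by rw [h1, h2]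
  unfold N at h3
  have h4 : ((acc (N' + 1) .init).card : ℤ) = (rhs (N' + 1) : ℤ) := by linarith
  exact_mod_cast h4

end Pool.Agent.Lib.MP_793dac_co
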