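import Mathlib

/-!
# Definitions: flattened Stirling permutations with three runs
-/

namespace Pool.Agent.Lib.MP_793dac_co

/-- `w` is a Stirling permutation of order `n`: each `i` with `1 ≤ i ≤ n` occurs exactly twice,
there are no other letters, and every letter strictly between the two copies of a letter
exceeds that letter. -/
def IsStirling (n : ℕ) (w : List ℕ) : Prop :=
  (∀ i, w.count i = if 1 ≤ i ∧ i ≤ n then 2 else 0) ∧
    ∀ a b c : Fin w.length, a < b → b < c → w.get a = w.get c → w.get a < w.get b

/-- The list of runs of `w`: the maximal contiguous weakly increasing subwords, from left to
right. (`List.splitBy` cuts `w` exactly at the places where the relation fails for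
the two neighbouring letters.) -/
def runs (w : List ℕ) : List (List ℕ) := w.splitBy (fun a b => decide (a ≤ b))

/-- The leading values (first letters) of the runs, from left to right. -/
def leadingValues (w : List ℕ) : List ℕ := (runs w).map (fun r => r.headI)

/-- `w` is flattened: its leading values are weakly increasing. -/
def IsFlattened (w : List ℕ) : Prop := (leadingValues w).Pairwise (· ≤ ·)

/-- The set of flattened Stirling permutations of order `n` with exactly three runs. -/
def flat3 (n : ℕ) : Set (List ℕ) :=
  {w | IsStirling n w ∧ IsFlattened w ∧ (runs w).length = 3}

end Pool.Agent.Lib.MP_793dac_co
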