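import Mathlib
import Pool.Agent.Lib.MP_793dac_co.Defs
import Pool.Agent.Lib.MP_793dac_co.Count

/-!
# The bijection between flattened Stirling permutations with three runs and label words
-/

namespace Pool.Agent.Lib.MP_793dac_co

open List

/-- multiplicity of a letter in run 1 -/
def c1 : Lab → ℕ | .A => 2 | .B => 0 | .C => 0 | .X => 1 | .Y => 0
/-- multiplicity of a letter in run 2 -/
def c2 : Lab → ℕ | .A => 0 | .B => 2 | .C => 0 | .X => 1 | .Y => 1
/-- multiplicity of a letter in run 3 -/
def c3 : Lab → ℕ | .A => 0 | .B => 0 | .C => 2 | .X => 0 | .Y => 1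

/-- the weakly increasing word with the multiplicities given by the label word, the
letters being `i, i+1, ...` -/
def part (c : Lab → ℕ) : ℕ → List Lab → List ℕ
  | _, [] => []
  | i, l :: ls => List.replicate (c l) i ++ part c (i + 1) ls

lemma part_append (c : Lab → ℕ) (i : ℕ) (u v : List Lab) :
    part c i (u ++ v) = part c i u ++ part c (i + u.length) v := by
  induction u generalizing i with
  | nil => simp [part]
  | cons l u ih =>
    simp only [List.cons_append, part, ih, List.length_cons, List.append_assoc]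
    congr 3
    omega

lemma part_bounds (c : Lab → ℕ) (i : ℕ) (ls : List Lab) (x : ℕ) (hx : x ∈ part c i ls) :
    i ≤ x ∧ x < i + ls.length := by
  induction ls generalizing i with
  | nil => simp [part] at hx
  | cons l ls ih =>
    simp only [part, List.mem_append, List.mem_replicate] at hx
    rcases hx with ⟨-, rfl⟩ | hx
    · simp
    · have := ih (i + 1) hx
      simp only [List.length_cons]
      omega

lemma part_sorted (c : Lab → ℕ) (i : ℕ) (ls : List Lab) : (part c i ls).Pairwise (· ≤ ·) := by
  induction ls generalizing i with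
  | nil => simp [part]
  | cons l ls ih =>
    simp only [part]
    rw [List.pairwise_append]
    refine ⟨?_, ih _, ?_⟩
    · rw [List.pairwise_replicate]; right; exact le_rfl
    · intro a ha b hb
      have h1 := (List.mem_replicate.mp ha).2
      have h2 := part_bounds c _ _ _ hb
      omega

lemma count_part (c : Lab → ℕ) (i : ℕ) (ls : List Lab) (k : ℕ) (hk : k < ls.length) :
    (part c i ls).count (i + k) = c ls[k] := by
  induction ls generalizing i k with
  | nil => simp at hk
  | cons l ls ih =>
    simp only [part, List.count_append, List.count_replicate]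
    rcases k with _ | k
    · simp only [Nat.add_zero, beq_self_eq_true, if_true, List.getElem_cons_zero]
      have : (part c (i + 1) ls).count i = 0 := by
        rw [List.count_eq_zero]
        intro h
        have := part_bounds c _ _ _ h
        omega
      omega
    · have h1 : (i == i + (k + 1)) = false := by
        rw [beq_eq_false_iff_ne]; omega
      rw [h1]
      simp only [Bool.false_eq_true, if_false, zero_add, List.getElem_cons_succ]
      have := ih (i + 1) k (by simpa using hk)
      rw [← this]
      congr 1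
      omega

lemma part_snoc (c : Lab → ℕ) (ls : List Lab) (l : Lab) :
    part c 1 (ls ++ [l]) = part c 1 ls ++ List.replicate (c l) (1 + ls.length) := by
  rw [part_append]
  simp [part]

/-- The triple of runs of a flattened Stirling permutation of order `n` with three runs. -/
structure Trip (n : ℕ) (r1 r2 r3 : List ℕ) (b c : ℕ) : Prop where
  s1 : r1.Pairwise (· ≤ ·)
  s2 : r2.Pairwise (· ≤ ·)
  s3 : r3.Pairwise (· ≤ ·)
  cnt : ∀ x, r1.count x + r2.count x + r3.count x = if 1 ≤ x ∧ x ≤ n then 2 else 0
  hb : b ∈ r2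
  hb' : ∀ x ∈ r2, b ≤ x
  hc : c ∈ r3
  hc' : ∀ x ∈ r3, c ≤ x
  hbc : b ≤ c
  h1 : ∃ a ∈ r1, a ≤ b
  hu : ∃ u ∈ r1, b < u
  hv : ∃ v ∈ r2, c < v
  hX : ∀ x ∈ r1, x ∈ r2 → x = b
  hY : ∀ x ∈ r2, x ∈ r3 → x = c
  hZ : ∀ x ∈ r1, x ∉ r3

lemma head_le_of_sorted {r : List ℕ} (hr : r.Pairwise (· ≤ ·)) (hne : r ≠ []) {x : ℕ}
    (hx : x ∈ r) : r.head hne ≤ x := by
  cases r with
  | nil => simp at hne
  | cons a r =>
    simp only [List.head_cons]
    rcases List.mem_cons.mp hx with rfl | hx
    · exact le_rfl
    · exact (List.pairwise_cons.mp hr).1 x hx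

lemma le_getLast_of_sorted {r : List ℕ} (hr : r.Pairwise (· ≤ ·)) (hne : r ≠ []) {x : ℕ}
    (hx : x ∈ r) : x ≤ r.getLast hne := by
  induction r with
  | nil => simp at hne
  | cons a r ih =>
    cases r with
    | nil =>
      simp only [List.mem_singleton] at hx
      simp [hx]
    | cons b r =>
      rw [List.getLast_cons (by simp)]
      rcases List.mem_cons.mp hx with rfl | hx
      · exact (List.pairwise_cons.mp hr).1 _ (List.getLast_mem _)
      · exact ih (List.pairwise_cons.mp hr).2 (by simp) hx

lemma isChain_of_sorted {r : List ℕ} (hr : r.Pairwise (· ≤ ·)) :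
    r.IsChain (fun x y => (decide (x ≤ y)) = true) := by
  have : r.Pairwise (fun x y => (decide (x ≤ y)) = true) := hr.imp (by intro a b h; simpa using h)
  exact this.isChain

lemma sorted_of_isChain {r : List ℕ} (hr : r.IsChain (fun x y => (decide (x ≤ y)) = true)) :
    r.Pairwise (· ≤ ·) := by
  have h : r.IsChain (· ≤ ·) := hr.imp (by intro a b h; simpa using h)
  exact h.pairwise

lemma Trip.ne1 {n r1 r2 r3 b c} (T : Trip n r1 r2 r3 b c) : r1 ≠ [] := by
  obtain ⟨a, ha, -⟩ := T.h1
  exact List.ne_nil_of_mem ha

lemma Trip.ne2 {n r1 r2 r3 b c} (T : Trip n r1 r2 r3 b c) : r2 ≠ [] :=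
  List.ne_nil_of_mem T.hb

lemma Trip.ne3 {n r1 r2 r3 b c} (T : Trip n r1 r2 r3 b c) : r3 ≠ [] :=
  List.ne_nil_of_mem T.hc

lemma Trip.head2 {n r1 r2 r3 b c} (T : Trip n r1 r2 r3 b c) : r2.head T.ne2 = b :=
  le_antisymm (head_le_of_sorted T.s2 _ T.hb) (T.hb' _ (List.head_mem _))

lemma Trip.head3 {n r1 r2 r3 b c} (T : Trip n r1 r2 r3 b c) : r3.head T.ne3 = c :=
  le_antisymm (head_le_of_sorted T.s3 _ T.hc) (T.hc' _ (List.head_mem _))

lemma Trip.runs {n r1 r2 r3 b c} (T : Trip n r1 r2 r3 b c) :
    runs (r1 ++ r2 ++ r3) = [r1, r2, r3] := by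
  unfold MP_793dac_co.runs
  rw [List.splitBy_eq_iff]
  refine ⟨by simp, ?_, ?_, ?_⟩
  · simp only [List.mem_cons, List.not_mem_nil, or_false, not_or]
    exact ⟨T.ne1.symm, T.ne2.symm, T.ne3.symm⟩
  · intro m hm
    simp only [List.mem_cons, List.not_mem_nil, or_false] at hm
    rcases hm with rfl | rfl | rfl
    · exact isChain_of_sorted T.s1
    · exact isChain_of_sorted T.s2
    · exact isChain_of_sorted T.s3
  · obtain ⟨u, hu, hu'⟩ := T.hu
    obtain ⟨v, hv, hv'⟩ := T.hv
    have e1 := le_getLast_of_sorted T.s1 T.ne1 hu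
    have e2 := le_getLast_of_sorted T.s2 T.ne2 hv
    have e3 := T.head2
    have e4 := T.head3
    simp only [List.isChain_cons_cons, List.isChain_singleton, and_true]
    refine ⟨⟨T.ne1, T.ne2, ?_⟩, ⟨T.ne2, T.ne3, ?_⟩⟩
    · rw [decide_eq_false_iff_not, e3]; omega
    · rw [decide_eq_false_iff_not, e4]; omega

/-- positions to sublists -/
lemma sublist_of_lt {w : List ℕ} {a b c : Fin w.length} (hab : a < b) (hbc : b < c) :
    [w.get a, w.get b, w.get c] <+ w := by
  rw [List.sublist_iff_exists_fin_orderEmbedding_get_eq]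
  refine ⟨OrderEmbedding.ofStrictMono ![a, b, c] ?_, ?_⟩
  · intro i j hij
    fin_cases i <;> fin_cases j <;> simp at hij ⊢ <;> first
      | exact hab
      | exact hbc
      | exact hab.trans hbc
  · intro i
    fin_cases i <;> rfl

/-- sublists to positions -/
lemma lt_of_sublist {n : ℕ} {w : List ℕ} (hw : IsStirling n w) {x y : ℕ}
    (h : [x, y, x] <+ w) : x < y := by
  rw [List.sublist_iff_exists_fin_orderEmbedding_get_eq] at h
  obtain ⟨f, hf⟩ := h
  have h0 := hf ⟨0, by simp⟩
  have h1 := hf ⟨1, by simp⟩
  have h2 := hf ⟨2, by simp⟩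
  simp only [List.get_eq_getElem, List.getElem_cons_zero, List.getElem_cons_succ] at h0 h1 h2
  have := hw.2 (f ⟨0, by simp⟩) (f ⟨1, by simp⟩) (f ⟨2, by simp⟩)
    (f.strictMono (by simp)) (f.strictMono (by simp))
    (by simp only [List.get_eq_getElem]; rw [← h0, ← h2])
  simp only [List.get_eq_getElem] at this
  rw [← h0, ← h1] at this
  exact this

/-- A triple gives a flattened Stirling permutation. -/
lemma Trip.mem_flat3 {n r1 r2 r3 b c} (T : Trip n r1 r2 r3 b c) :
    r1 ++ r2 ++ r3 ∈ flat3 n := by
  refine ⟨⟨?_, ?_⟩, ?_, ?_⟩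
  · intro x
    rw [List.count_append, List.count_append]
    exact T.cnt x
  · intro p q r hpq hqr heq
    have hsub := sublist_of_lt hpq hqr
    rw [← heq] at hsub
    generalize (r1 ++ r2 ++ r3).get p = x at hsub heq
    generalize (r1 ++ r2 ++ r3).get q = y at hsub
    have hcx : ∀ x, (r1 ++ r2 ++ r3).count x ≤ 2 := by
      intro x
      rw [List.count_append, List.count_append, T.cnt x]
      split_ifs <;> omega
    -- y ≠ x since otherwise x occurs three times
    have hne : y ≠ x := by
      rintro rfl
      have h1 := hsub.count_le y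
      have h2 := hcx y
      have h3 : [y, y, y].count y = 3 := by simp
      omega
    by_contra hlt
    have hyx : y < x := by omega
    -- x before y with y < x
    have hns : ∀ (r : List ℕ), r.Pairwise (· ≤ ·) → ¬ [x, y] <+ r := by
      intro r hr hs
      have := hr.sublist hs
      simp at this
      omega
    rw [List.append_assoc, List.sublist_append_iff] at hsub
    obtain ⟨l1, l23, hl, hl1, hl23⟩ := hsub
    rw [List.sublist_append_iff] at hl23
    obtain ⟨l2, l3, hl', hl2, hl3⟩ := hl23
    subst hl'
    have mem_of : ∀ {r : List ℕ} {z : ℕ} {l : List ℕ}, l <+ r → z ∈ l → z ∈ r :=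
      fun h hz => h.subset hz
    -- cases on l1
    rcases l1 with _ | ⟨p1, _ | ⟨p2, l1⟩⟩
    · -- l1 = []
      simp only [List.nil_append] at hl
      rcases l2 with _ | ⟨q1, _ | ⟨q2, l2⟩⟩
      · simp only [List.nil_append] at hl
        subst hl
        exact hns r3 T.s3 ((by simp : [x, y] <+ [x, y, x]).trans hl3)
      · simp only [List.cons_append, List.nil_append, List.cons.injEq] at hl
        obtain ⟨rfl, rfl⟩ := hl
        have hx2 : x ∈ r2 := mem_of hl2 (by simp)
        have hx3 : x ∈ r3 := mem_of hl3 (by simp)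
        have hy3 : y ∈ r3 := mem_of hl3 (by simp)
        have := T.hY x hx2 hx3
        have := T.hc' y hy3
        omega
      · simp only [List.cons_append, List.cons.injEq] at hl
        obtain ⟨rfl, rfl, -⟩ := hl
        exact hns r2 T.s2 ((by simp : [x, y] <+ x :: y :: l2).trans hl2)
    · -- l1 = [p1]
      simp only [List.cons_append, List.nil_append, List.cons.injEq] at hl
      obtain ⟨rfl, hl⟩ := hl
      have hx1 : x ∈ r1 := mem_of hl1 (by simp)
      have hxm : x ∈ r2 ∨ x ∈ r3 := by
        have : x ∈ l2 ++ l3 := by rw [← hl]; simp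
        rcases List.mem_append.mp this with h | h
        · exact Or.inl (mem_of hl2 h)
        · exact Or.inr (mem_of hl3 h)
      have hym : y ∈ r2 ∨ y ∈ r3 := by
        have : y ∈ l2 ++ l3 := by rw [← hl]; simp
        rcases List.mem_append.mp this with h | h
        · exact Or.inl (mem_of hl2 h)
        · exact Or.inr (mem_of hl3 h)
      have hxb : x = b := by
        rcases hxm with h | h
        · exact T.hX x hx1 h
        · exact absurd h (T.hZ x hx1)
      rcases hym with h | h
      · have := T.hb' y h; omega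
      · have := T.hc' y h
        have := T.hbc
        omega
    · simp only [List.cons_append, List.cons.injEq] at hl
      obtain ⟨rfl, rfl, -⟩ := hl
      exact hns r1 T.s1 ((by simp : [x, y] <+ x :: y :: l1).trans hl1)
  · unfold IsFlattened leadingValues
    rw [T.runs]
    obtain ⟨a, ha, hab⟩ := T.h1
    have e1 := head_le_of_sorted T.s1 T.ne1 ha
    have e2 := T.head2
    have e3 := T.head3
    have e4 := T.hbc
    have hh : ∀ (r : List ℕ) (h : r ≠ []), r.headI = r.head h := by
      intro r h
      cases r with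
      | nil => simp at h
      | cons a r => rfl
    simp only [List.map_cons, List.map_nil, hh r1 T.ne1, hh r2 T.ne2, hh r3 T.ne3, e2, e3,
      List.pairwise_cons, List.mem_cons, List.not_mem_nil, or_false, forall_eq_or_imp, forall_eq,
      List.Pairwise.nil, and_true]
    refine ⟨⟨by omega, by omega⟩, by omega, ?_⟩
    intro a h
    simp at h
  · rw [T.runs]; rfl

/-- A flattened Stirling permutation with three runs comes from a triple. -/
lemma exists_trip {n : ℕ} {w : List ℕ} (hw : w ∈ flat3 n) :
    ∃ r1 r2 r3 b c, w = r1 ++ r2 ++ r3 ∧ Trip n r1 r2 r3 b c := by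
  obtain ⟨hS, hF, hL⟩ := hw
  obtain ⟨r1, r2, r3, hr⟩ : ∃ r1 r2 r3, runs w = [r1, r2, r3] := by
    rw [List.length_eq_three] at hL
    exact hL
  unfold IsFlattened leadingValues at hF
  rw [hr] at hF
  have hr' := hr
  unfold runs at hr'
  rw [List.splitBy_eq_iff] at hr'
  obtain ⟨hflat, hnil, hch, hadj⟩ := hr'
  simp only [List.mem_cons, List.not_mem_nil, or_false, not_or] at hnil
  obtain ⟨n1, n2, n3⟩ := hnil
  have s1 := sorted_of_isChain (hch r1 (by simp))
  have s2 := sorted_of_isChain (hch r2 (by simp))
  have s3 := sorted_of_isChain (hch r3 (by simp))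
  simp only [List.isChain_cons_cons, List.isChain_singleton, and_true,
    decide_eq_false_iff_not, not_le] at hadj
  obtain ⟨⟨m1, m2, hd1⟩, ⟨m2', m3, hd2⟩⟩ := hadj
  have hwe : w = r1 ++ r2 ++ r3 := by rw [hflat]; simp
  have hh : ∀ (r : List ℕ) (h : r ≠ []), r.headI = r.head h := by
    intro r h
    cases r with
    | nil => simp at h
    | cons a r => rfl
  simp only [List.map_cons, List.map_nil, hh r1 m1, hh r2 m2, hh r3 m3,
      List.pairwise_cons, List.mem_cons, List.not_mem_nil, or_false, forall_eq_or_imp, forall_eq,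
      List.Pairwise.nil, and_true] at hF
  obtain ⟨⟨hF1, hF2⟩, hF3, -⟩ := hF
  refine ⟨r1, r2, r3, r2.head m2, r3.head m3, hwe, ?_⟩
  have hsub : ∀ x y, [x, y, x] <+ r1 ++ (r2 ++ r3) → x < y := by
    intro x y h
    apply lt_of_sublist hS
    rw [hwe, List.append_assoc]
    exact h
  have sing : ∀ {x : ℕ} {r : List ℕ}, x ∈ r → [x] <+ r := by
    intro x r h
    exact List.singleton_sublist.mpr h
  refine ⟨s1, s2, s3, ?_, List.head_mem _, fun x hx => head_le_of_sorted s2 _ hx,
    List.head_mem _, fun x hx => head_le_of_sorted s3 _ hx, hF3,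
    ⟨r1.head m1, List.head_mem _, hF1⟩, ⟨r1.getLast m1, List.getLast_mem _, hd1⟩,
    ⟨r2.getLast m2, List.getLast_mem _, hd2⟩, ?_, ?_, ?_⟩
  · intro x
    have := hS.1 x
    rw [hwe, List.count_append, List.count_append] at this
    exact this
  · intro x hx1 hx2
    by_contra hne
    have hle := head_le_of_sorted s2 m2 hx2
    have h2 : [r2.head m2, x] <+ r2 := by
      cases r2 with
      | nil => simp at m2
      | cons a r2 =>
        simp only [List.head_cons] at hne ⊢
        rcases List.mem_cons.mp hx2 with h | h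
        · exact absurd h hne
        · exact (sing h).cons_cons _
    have h3 : [x, r2.head m2, x] <+ r1 ++ (r2 ++ r3) := by
      have := (sing hx1).append (h2.trans (List.sublist_append_left r2 r3))
      simpa using this
    have := hsub _ _ h3
    omega
  · intro x hx2 hx3
    by_contra hne
    have hle := head_le_of_sorted s3 m3 hx3
    have h2 : [r3.head m3, x] <+ r3 := by
      cases r3 with
      | nil => simp at m3
      | cons a r3 =>
        simp only [List.head_cons] at hne ⊢
        rcases List.mem_cons.mp hx3 with h | h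
        · exact absurd h hne
        · exact (sing h).cons_cons _
    have h3 : [x, r3.head m3, x] <+ r1 ++ (r2 ++ r3) := by
      have h4 : [x, r3.head m3, x] <+ r2 ++ r3 := by
        have := (sing hx2).append h2
        simpa using this
      exact h4.trans (List.sublist_append_right _ _)
    have := hsub _ _ h3
    omega
  · intro x hx1 hx3
    have hle := head_le_of_sorted s3 m3 hx3
    have h3 : [x, r2.head m2, x] <+ r1 ++ (r2 ++ r3) := by
      have := (sing hx1).append ((sing (List.head_mem m2)).append (sing hx3))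
      simpa using this
    have := hsub _ _ h3
    omega

end Pool.Agent.Lib.MP_793dac_co
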