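import Mathlib
import Pool.Agent.Lib.MP_793dac_co.Bij

/-!
# Accepted label words give triples, and conversely
-/

namespace Pool.Agent.Lib.MP_793dac_co

open List

/-- Invariant of the states of the automaton. -/
def Inv (s : St) (r1 r2 r3 : List ℕ) : Prop :=
  match s with
  | .init => r1 = [] ∧ r2 = [] ∧ r3 = []
  | .P => r1 ≠ [] ∧ r2 = [] ∧ r3 = []
  | .Q a => r3 = [] ∧ ∃ b ∈ r2, (∀ x ∈ r2, b ≤ x) ∧ (∃ a0 ∈ r1, a0 ≤ b) ∧
      (∀ x ∈ r1, x ∈ r2 → x = b) ∧ (a = true → ∃ u ∈ r1, b < u)
  | .R a a' => ∃ b c, b ∈ r2 ∧ (∀ x ∈ r2, b ≤ x) ∧ c ∈ r3 ∧ (∀ x ∈ r3, c ≤ x) ∧ b ≤ c ∧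
      (∃ a0 ∈ r1, a0 ≤ b) ∧ (∀ x ∈ r1, x ∈ r2 → x = b) ∧ (∀ x ∈ r2, x ∈ r3 → x = c) ∧
      (∀ x ∈ r1, x ∉ r3) ∧ (a = true → ∃ u ∈ r1, b < u) ∧ (a' = true → ∃ v ∈ r2, c < v)
  | .dead => True

lemma Inv_step (s : St) (l : Lab) (m : ℕ) (r1 r2 r3 : List ℕ)
    (h1 : ∀ x ∈ r1, x ≤ m) (h2 : ∀ x ∈ r2, x ≤ m) (h3 : ∀ x ∈ r3, x ≤ m)
    (h : Inv s r1 r2 r3) :
    Inv (step s l) (r1 ++ replicate (c1 l) (1 + m)) (r2 ++ replicate (c2 l) (1 + m))
      (r3 ++ replicate (c3 l) (1 + m)) := by
  rcases s with _ | _ | a | ⟨a, a'⟩ | _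
  · obtain ⟨rfl, rfl, rfl⟩ := h
    cases l <;> simp [step, Inv, c1, c2, c3]
  · obtain ⟨hne, rfl, rfl⟩ := h
    obtain ⟨x, hx⟩ := List.exists_mem_of_ne_nil _ hne
    have hx1 := h1 x hx
    cases l
    · simp [step, Inv, c1, c2, c3]
    · simp only [step, Inv, c1, c2, c3, replicate_zero, append_nil, nil_append, mem_replicate,
        true_and]
      refine ⟨1 + m, by simp, by simp, ⟨x, hx, by omega⟩, ?_, by simp⟩
      rintro y hy ⟨-, rfl⟩; rfl
    · simp [step, Inv]
    · simp only [step, Inv, c1, c2, c3, replicate_zero, append_nil, nil_append, mem_replicate,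
        mem_append, true_and]
      refine ⟨1 + m, by simp, by simp, ⟨x, Or.inl hx, by omega⟩, ?_, by simp⟩
      rintro y hy ⟨-, rfl⟩; rfl
    · simp only [step, Inv, c1, c2, c3, replicate_zero, append_nil, nil_append, mem_replicate]
      refine ⟨1 + m, 1 + m, by simp, by simp, by simp, by simp, le_rfl, ⟨x, hx, by omega⟩,
        ?_, ?_, ?_, by simp, by simp⟩
      · rintro y hy ⟨-, rfl⟩; rfl
      · rintro y - ⟨-, rfl⟩; rfl
      · rintro y hy ⟨-, rfl⟩
        have := h1 _ hy
        omega
  · obtain ⟨rfl, b, hb, hb', ⟨a0, ha0, ha0'⟩, hX, ha⟩ := h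
    have hbm := h2 b hb
    cases l
    · simp only [step, Inv, c1, c2, c3, replicate_zero, append_nil, mem_replicate,
        mem_append, true_and]
      refine ⟨b, hb, hb', ⟨a0, Or.inl ha0, ha0'⟩, ?_, fun _ => ⟨1 + m, Or.inr (by simp), by omega⟩⟩
      rintro y (hy | ⟨-, rfl⟩) hy2
      · exact hX y hy hy2
      · have := h2 _ hy2; omega
    · simp only [step, Inv, c1, c2, c3, replicate_zero, append_nil, mem_replicate,
        mem_append, true_and]
      refine ⟨b, Or.inl hb, ?_, ⟨a0, ha0, ha0'⟩, ?_, ha⟩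
      · rintro y (hy | ⟨-, rfl⟩)
        · exact hb' y hy
        · omega
      · rintro y hy (hy2 | ⟨-, rfl⟩)
        · exact hX y hy hy2
        · have := h1 _ hy; omega
    · simp only [step, Inv, c1, c2, c3, replicate_zero, append_nil, nil_append, mem_replicate]
      refine ⟨b, 1 + m, hb, hb', by simp, by simp, by omega, ⟨a0, ha0, ha0'⟩, hX, ?_, ?_, ha,
        by simp⟩
      · rintro y hy ⟨-, rfl⟩; rfl
      · rintro y hy ⟨-, rfl⟩
        have := h1 _ hy; omega
    · simp [step, Inv]
    · simp only [step, Inv, c1, c2, c3, replicate_zero, append_nil, nil_append, mem_replicate,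
        mem_append]
      refine ⟨b, 1 + m, Or.inl hb, ?_, by simp, by simp, by omega, ⟨a0, ha0, ha0'⟩, ?_, ?_, ?_, ha,
        by simp⟩
      · rintro y (hy | ⟨-, rfl⟩)
        · exact hb' y hy
        · omega
      · rintro y hy (hy2 | ⟨-, rfl⟩)
        · exact hX y hy hy2
        · have := h1 _ hy; omega
      · rintro y - ⟨-, rfl⟩; rfl
      · rintro y hy ⟨-, rfl⟩
        have := h1 _ hy; omega
  · obtain ⟨b, c, hb, hb', hc, hc', hbc, ⟨a0, ha0, ha0'⟩, hX, hY, hZ, ha, ha'⟩ := h
    have hbm := h2 b hb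
    have hcm := h3 c hc
    cases l
    · simp only [step, Inv, c1, c2, c3, replicate_zero, append_nil, mem_replicate, mem_append]
      refine ⟨b, c, hb, hb', hc, hc', hbc, ⟨a0, Or.inl ha0, ha0'⟩, ?_, hY, ?_,
        fun _ => ⟨1 + m, Or.inr (by simp), by omega⟩, ha'⟩
      · rintro y (hy | ⟨-, rfl⟩) hy2
        · exact hX y hy hy2
        · have := h2 _ hy2; omega
      · rintro y (hy | ⟨-, rfl⟩) hy2
        · exact hZ y hy hy2
        · have := h3 _ hy2; omega
    · simp only [step, Inv, c1, c2, c3, replicate_zero, append_nil, mem_replicate, mem_append]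
      refine ⟨b, c, Or.inl hb, ?_, hc, hc', hbc, ⟨a0, ha0, ha0'⟩, ?_, ?_, hZ, ha,
        fun _ => ⟨1 + m, Or.inr (by simp), by omega⟩⟩
      · rintro y (hy | ⟨-, rfl⟩)
        · exact hb' y hy
        · omega
      · rintro y hy (hy2 | ⟨-, rfl⟩)
        · exact hX y hy hy2
        · have := h1 _ hy; omega
      · rintro y (hy | ⟨-, rfl⟩) hy2
        · exact hY y hy hy2
        · have := h3 _ hy2; omega
    · simp only [step, Inv, c1, c2, c3, replicate_zero, append_nil, mem_replicate, mem_append]
      refine ⟨b, c, hb, hb', Or.inl hc, ?_, hbc, ⟨a0, ha0, ha0'⟩, hX, ?_, ?_, ha, ha'⟩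
      · rintro y (hy | ⟨-, rfl⟩)
        · exact hc' y hy
        · omega
      · rintro y hy (hy2 | ⟨-, rfl⟩)
        · exact hY y hy hy2
        · have := h2 _ hy; omega
      · rintro y hy (hy2 | ⟨-, rfl⟩)
        · exact hZ y hy hy2
        · have := h1 _ hy; omega
    · simp [step, Inv]
    · simp [step, Inv]
  · simp [step, Inv]

lemma Inv_foldl (ls : List Lab) :
    Inv (ls.foldl step .init) (part c1 1 ls) (part c2 1 ls) (part c3 1 ls) := by
  induction ls using List.reverseRecOn with
  | nil => simp [Inv, part]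
  | append_singleton ls l ih =>
    rw [List.foldl_append, part_snoc, part_snoc, part_snoc]
    simp only [List.foldl_cons, List.foldl_nil]
    apply Inv_step _ _ _ _ _ _ _ _ _ ih
    · intro x hx; have := part_bounds _ _ _ _ hx; omega
    · intro x hx; have := part_bounds _ _ _ _ hx; omega
    · intro x hx; have := part_bounds _ _ _ _ hx; omega

lemma c_sum (l : Lab) : c1 l + c2 l + c3 l = 2 := by cases l <;> rfl

/-- Accepted label words give triples. -/
lemma trip_of_acc (ls : List Lab) (h : ls.foldl step .init = .R true true) :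
    ∃ b c, Trip ls.length (part c1 1 ls) (part c2 1 ls) (part c3 1 ls) b c := by
  have hI := Inv_foldl ls
  rw [h] at hI
  obtain ⟨b, c, hb, hb', hc, hc', hbc, h1, hX, hY, hZ, ha, ha'⟩ := hI
  refine ⟨b, c, part_sorted _ _ _, part_sorted _ _ _, part_sorted _ _ _, ?_, hb, hb', hc, hc',
    hbc, h1, ha rfl, ha' rfl, hX, hY, hZ⟩
  intro x
  split_ifs with hx
  · obtain ⟨k, rfl⟩ : ∃ k, x = 1 + k := ⟨x - 1, by omega⟩
    have hk : k < ls.length := by omega
    rw [count_part _ _ _ _ hk, count_part _ _ _ _ hk, count_part _ _ _ _ hk]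
    exact c_sum _
  · have hz : ∀ c, (part c 1 ls).count x = 0 := by
      intro c
      rw [List.count_eq_zero]
      intro hm
      have := part_bounds _ _ _ _ hm
      omega
    rw [hz, hz, hz]

/-- The label of a letter with given multiplicities in the runs. -/
def lab (m1 m2 m3 : ℕ) : Lab :=
  if m1 = 2 then .A else if m2 = 2 then .B else if m3 = 2 then .C else if m1 = 1 then .X else .Y

/-- Triples give accepted label words. -/
lemma acc_of_trip {n r1 r2 r3 b c} (T : Trip n r1 r2 r3 b c) :
    ∃ ls : List Lab, ls.length = n ∧ ls.foldl step .init = .R true true ∧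
      part c1 1 ls = r1 ∧ part c2 1 ls = r2 ∧ part c3 1 ls = r3 := by
  classical
  let g : ℕ → Lab := fun x => lab (r1.count x) (r2.count x) (r3.count x)
  have hrange : ∀ x, (x ∈ r1 ∨ x ∈ r2 ∨ x ∈ r3) → 1 ≤ x ∧ x ≤ n := by
    intro x hx
    by_contra hcon
    have := T.cnt x
    rw [if_neg hcon] at this
    rcases hx with h | h | h
    · have := List.count_pos_iff.mpr h; omega
    · have := List.count_pos_iff.mpr h; omega
    · have := List.count_pos_iff.mpr h; omega
  -- the multiplicities
  have hcnt : ∀ x, 1 ≤ x → x ≤ n → c1 (g x) = r1.count x ∧ c2 (g x) = r2.count x ∧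
      c3 (g x) = r3.count x := by
    intro x hx1 hx2
    have h := T.cnt x
    rw [if_pos ⟨hx1, hx2⟩] at h
    have hz : ¬ (r1.count x ≠ 0 ∧ r3.count x ≠ 0) := by
      rintro ⟨h1, h3⟩
      exact T.hZ x (List.count_pos_iff.mp (by omega)) (List.count_pos_iff.mp (by omega))
    show c1 (lab _ _ _) = _ ∧ c2 (lab _ _ _) = _ ∧ c3 (lab _ _ _) = _
    generalize r1.count x = m1 at h hz
    generalize r2.count x = m2 at h hz
    generalize r3.count x = m3 at h hz
    unfold lab
    split_ifs with e1 e2 e3 e4 <;> simp only [c1, c2, c3] <;> omega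
  have hbn := hrange b (Or.inr (Or.inl T.hb))
  have hcn := hrange c (Or.inr (Or.inr T.hc))
  obtain ⟨a0, ha0, ha0'⟩ := T.h1
  have ha0n := hrange a0 (Or.inl ha0)
  have hbc := T.hbc
  -- labels
  have hmem1 : ∀ x, 1 ≤ x → x ≤ n → (x ∈ r1 ↔ c1 (g x) ≠ 0) := by
    intro x h1 h2
    rw [(hcnt x h1 h2).1, ← List.count_pos_iff]; omega
  have hmem2 : ∀ x, 1 ≤ x → x ≤ n → (x ∈ r2 ↔ c2 (g x) ≠ 0) := by
    intro x h1 h2
    rw [(hcnt x h1 h2).2.1, ← List.count_pos_iff]; omega
  have hmem3 : ∀ x, 1 ≤ x → x ≤ n → (x ∈ r3 ↔ c3 (g x) ≠ 0) := by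
    intro x h1 h2
    rw [(hcnt x h1 h2).2.2, ← List.count_pos_iff]; omega
  have lab_lt_b : ∀ x, 1 ≤ x → x < b → g x = .A := by
    intro x h1 h2
    have n2 : x ∉ r2 := fun h => by have := T.hb' x h; omega
    have n3 : x ∉ r3 := fun h => by have := T.hc' x h; omega
    rw [hmem2 x h1 (by omega)] at n2
    rw [hmem3 x h1 (by omega)] at n3
    revert n2 n3
    cases g x <;> simp [c2, c3]
  have lab_b : b < c → (g b = .X ∨ (g b = .B ∧ 1 < b)) := by
    intro hlt
    have n2 := (hmem2 b hbn.1 hbn.2).mp T.hb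
    have n3 : b ∉ r3 := fun h => by have := T.hc' b h; omega
    rw [hmem3 b hbn.1 hbn.2] at n3
    by_cases h1 : b = 1
    · have : a0 = b := by omega
      rw [this] at ha0
      have n1 := (hmem1 b hbn.1 hbn.2).mp ha0
      revert n1 n2 n3
      cases g b <;> simp [c1, c2, c3]
    · have : 1 < b := by omega
      revert n2 n3
      cases g b <;> simp [c2, c3, this]
  have lab_bc : b = c → g b = .Y ∧ 1 < b := by
    intro heq
    have n2 := (hmem2 b hbn.1 hbn.2).mp T.hb
    have n3 : b ∈ r3 := by rw [heq]; exact T.hc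
    have n1 : b ∉ r1 := fun h => T.hZ b h n3
    have n3' := (hmem3 b hbn.1 hbn.2).mp n3
    refine ⟨?_, ?_⟩
    · revert n2 n3'
      cases g b <;> simp [c2, c3]
    · by_contra hcon
      have : a0 = b := by omega
      rw [this] at ha0
      exact n1 ha0
  have lab_mid : ∀ x, b < x → x < c → (g x = .A ∨ g x = .B) := by
    intro x h1 h2
    have n3 : x ∉ r3 := fun h => by have := T.hc' x h; omega
    have nX : ¬ (x ∈ r1 ∧ x ∈ r2) := fun h => by have := T.hX x h.1 h.2; omega
    rw [hmem1 x (by omega) (by omega), hmem2 x (by omega) (by omega)] at nX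
    rw [hmem3 x (by omega) (by omega)] at n3
    revert n3 nX
    cases g x <;> simp [c1, c2, c3]
  have lab_c : b < c → (g c = .C ∨ g c = .Y) := by
    intro hlt
    have n3 := (hmem3 c hcn.1 hcn.2).mp T.hc
    revert n3
    cases g c <;> simp [c3]
  have lab_gt : ∀ x, c < x → x ≤ n → (g x = .A ∨ g x = .B ∨ g x = .C) := by
    intro x h1 h2
    have nX : ¬ (x ∈ r1 ∧ x ∈ r2) := fun h => by have := T.hX x h.1 h.2; omega
    have nY : ¬ (x ∈ r2 ∧ x ∈ r3) := fun h => by have := T.hY x h.1 h.2; omega
    rw [hmem1 x (by omega) (by omega), hmem2 x (by omega) (by omega)] at nX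
    rw [hmem2 x (by omega) (by omega), hmem3 x (by omega) (by omega)] at nY
    revert nX nY
    cases g x <;> simp [c1, c2, c3]
  -- the states
  let pa : ℕ → Bool := fun k => decide (∃ x, b < x ∧ x ≤ k ∧ g x = .A)
  let pb : ℕ → Bool := fun k => decide (∃ x, c < x ∧ x ≤ k ∧ g x = .B)
  let σ : ℕ → St := fun k => if k = 0 then .init else if k < b then .P else if k < c then .Q (pa k)
    else .R (pa k) (pb k)
  have hpa_b : pa b = false := by
    simp only [pa, decide_eq_false_iff_not]
    rintro ⟨x, h1, h2, -⟩; omega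
  have hpb_c : pb c = false := by
    simp only [pb, decide_eq_false_iff_not]
    rintro ⟨x, h1, h2, -⟩; omega
  have hpa_A : ∀ k, b < k + 1 → g (k + 1) = .A → pa (k + 1) = true := by
    intro k hk hg
    simp only [pa, decide_eq_true_eq]
    exact ⟨k + 1, hk, le_rfl, hg⟩
  have hpa_nA : ∀ k, g (k + 1) ≠ .A → pa (k + 1) = pa k := by
    intro k hg
    simp only [pa, decide_eq_decide]
    constructor
    · rintro ⟨x, h1, h2, h3⟩
      rcases Nat.lt_or_ge k x with h | h
      · have : x = k + 1 := by omega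
        rw [this] at h3; exact absurd h3 hg
      · exact ⟨x, h1, h, h3⟩
    · rintro ⟨x, h1, h2, h3⟩; exact ⟨x, h1, by omega, h3⟩
  have hpb_B : ∀ k, c < k + 1 → g (k + 1) = .B → pb (k + 1) = true := by
    intro k hk hg
    simp only [pb, decide_eq_true_eq]
    exact ⟨k + 1, hk, le_rfl, hg⟩
  have hpb_nB : ∀ k, g (k + 1) ≠ .B → pb (k + 1) = pb k := by
    intro k hg
    simp only [pb, decide_eq_decide]
    constructor
    · rintro ⟨x, h1, h2, h3⟩
      rcases Nat.lt_or_ge k x with h | h
      · have : x = k + 1 := by omega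
        rw [this] at h3; exact absurd h3 hg
      · exact ⟨x, h1, h, h3⟩
    · rintro ⟨x, h1, h2, h3⟩; exact ⟨x, h1, by omega, h3⟩
  have hstep : ∀ k, k < n → step (σ k) (g (k + 1)) = σ (k + 1) := by
    intro k hk
    rcases lt_trichotomy (k + 1) b with h | h | h
    · -- before b
      have hg := lab_lt_b (k + 1) (by omega) h
      have e1 : σ (k + 1) = .P := by
        simp only [σ]; rw [if_neg (by omega), if_pos h]
      rw [e1, hg]
      by_cases h0 : k = 0
      · have : σ k = .init := by simp only [σ]; rw [if_pos h0]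
        rw [this]; rfl
      · have : σ k = .P := by simp only [σ]; rw [if_neg h0, if_pos (by omega)]
        rw [this]; rfl
    · rcases lt_or_eq_of_le hbc with hlt | heq
      · have hg := lab_b hlt
        rw [← h] at hg
        have e1 : σ (k + 1) = .Q false := by
          simp only [σ]
          rw [if_neg (by omega), if_neg (by omega), if_pos (by omega), h, hpa_b]
        rw [e1]
        by_cases h0 : k = 0
        · have e2 : σ k = .init := by simp only [σ]; rw [if_pos h0]
          rw [e2]
          rcases hg with hg | ⟨hg, h1⟩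
          · rw [hg]; rfl
          · omega
        · have e2 : σ k = .P := by simp only [σ]; rw [if_neg h0, if_pos (by omega)]
          rw [e2]
          rcases hg with hg | ⟨hg, h1⟩
          · rw [hg]; rfl
          · rw [hg]; rfl
      · obtain ⟨hg, h1⟩ := lab_bc heq
        rw [← h] at hg
        have e1 : σ (k + 1) = .R false false := by
          simp only [σ]
          rw [if_neg (by omega), if_neg (by omega), if_neg (by omega), h, hpa_b, heq, hpb_c]
        have e2 : σ k = .P := by simp only [σ]; rw [if_neg (by omega), if_pos (by omega)]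
        rw [e1, e2, hg]; rfl
    · rcases lt_trichotomy (k + 1) c with h' | h' | h'
      · have hg := lab_mid (k + 1) h h'
        have e1 : σ (k + 1) = .Q (pa (k + 1)) := by
          simp only [σ]
          rw [if_neg (by omega), if_neg (by omega), if_pos (by omega)]
        have e2 : σ k = .Q (pa k) := by
          simp only [σ]
          rw [if_neg (by omega), if_neg (by omega), if_pos (by omega)]
        rw [e1, e2]
        rcases hg with hg | hg
        · rw [hpa_A k h hg, hg]; rfl
        · rw [hpa_nA k (by rw [hg]; simp), hg]; rfl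
      · have hg := lab_c (by omega)
        rw [← h'] at hg
        have e1 : σ (k + 1) = .R (pa (k + 1)) false := by
          simp only [σ]
          rw [if_neg (by omega), if_neg (by omega), if_neg (by omega), ← hpb_c, h']
        have e2 : σ k = .Q (pa k) := by
          simp only [σ]
          rw [if_neg (by omega), if_neg (by omega), if_pos (by omega)]
        rw [e1, e2]
        rcases hg with hg | hg
        · rw [hpa_nA k (by rw [hg]; simp), hg]; rfl
        · rw [hpa_nA k (by rw [hg]; simp), hg]; rfl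
      · have hg := lab_gt (k + 1) h' (by omega)
        have e1 : σ (k + 1) = .R (pa (k + 1)) (pb (k + 1)) := by
          simp only [σ]
          rw [if_neg (by omega), if_neg (by omega), if_neg (by omega)]
        have e2 : σ k = .R (pa k) (pb k) := by
          simp only [σ]
          rw [if_neg (by omega), if_neg (by omega), if_neg (by omega)]
        rw [e1, e2]
        rcases hg with hg | hg | hg
        · rw [hpa_A k h hg, hpb_nB k (by rw [hg]; simp), hg]; rfl
        · rw [hpa_nA k (by rw [hg]; simp), hpb_B k h' hg, hg]; rfl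
        · rw [hpa_nA k (by rw [hg]; simp), hpb_nB k (by rw [hg]; simp), hg]; rfl
  have hfold : ∀ k, k ≤ n → ((List.range' 1 k).map g).foldl step .init = σ k := by
    intro k
    induction k with
    | zero => intro _; simp [σ]
    | succ k ih =>
      intro hk
      rw [List.range'_1_concat, List.map_append, List.foldl_append, ih (by omega)]
      simp only [List.map_cons, List.map_nil, List.foldl_cons, List.foldl_nil]
      rw [Nat.add_comm 1 k]
      exact hstep k (by omega)
  refine ⟨(List.range' 1 n).map g, by simp, ?_, ?_, ?_, ?_⟩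
  · rw [hfold n le_rfl]
    simp only [σ]
    rw [if_neg (by omega), if_neg (by omega), if_neg (by omega)]
    obtain ⟨u, hu, hu'⟩ := T.hu
    obtain ⟨v, hv, hv'⟩ := T.hv
    have hun := hrange u (Or.inl hu)
    have hvn := hrange v (Or.inr (Or.inl hv))
    have hgu : g u = .A := by
      have n1 := (hmem1 u hun.1 hun.2).mp hu
      have nX : u ∉ r2 := fun h => by have := T.hX u hu h; omega
      rw [hmem2 u hun.1 hun.2] at nX
      revert n1 nX
      cases g u <;> simp [c1, c2]
    have hgv : g v = .B := by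
      have n1 := (hmem2 v hvn.1 hvn.2).mp hv
      have nX : v ∉ r1 := fun h => by have := T.hX v h hv; omega
      have nY : v ∉ r3 := fun h => by have := T.hY v hv h; omega
      rw [hmem1 v hvn.1 hvn.2] at nX
      rw [hmem3 v hvn.1 hvn.2] at nY
      revert n1 nX nY
      cases g v <;> simp [c1, c2, c3]
    have e1 : pa n = true := by
      simp only [pa, decide_eq_true_eq]; exact ⟨u, hu', hun.2, hgu⟩
    have e2 : pb n = true := by
      simp only [pb, decide_eq_true_eq]; exact ⟨v, hv', hvn.2, hgv⟩
    rw [e1, e2]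
  all_goals
    apply List.Perm.eq_of_pairwise (le := fun a b => a ≤ b)
      (fun a b _ _ h h' => le_antisymm h h') (part_sorted _ _ _)
    · first | exact T.s1 | exact T.s2 | exact T.s3
    · rw [List.perm_iff_count]
      intro x
      by_cases hx : 1 ≤ x ∧ x ≤ n
      · obtain ⟨k, rfl⟩ : ∃ k, x = 1 + k := ⟨x - 1, by omega⟩
        rw [count_part _ _ _ _ (by simp; omega)]
        simp only [List.getElem_map, List.getElem_range', Nat.one_mul]
        first
          | exact (hcnt _ hx.1 hx.2).1
          | exact (hcnt _ hx.1 hx.2).2.1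
          | exact (hcnt _ hx.1 hx.2).2.2
      · rw [List.count_eq_zero.mpr, List.count_eq_zero.mpr]
        · intro h
          first
            | exact hx (hrange x (Or.inl h))
            | exact hx (hrange x (Or.inr (Or.inl h)))
            | exact hx (hrange x (Or.inr (Or.inr h)))
        · intro h
          have := part_bounds _ _ _ _ h
          simp only [List.length_map, List.length_range'] at this
          omega

end Pool.Agent.Lib.MP_793dac_co
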