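import Mathlib
import Pool.Agent.Lib.MP_793dac_co.Inv

/-!
# The number of flattened Stirling permutations with three runs
-/

namespace Pool.Agent.Lib.MP_793dac_co

open List

/-- the word of a label word -/
def wd (ls : List Lab) : List ℕ := part c1 1 ls ++ part c2 1 ls ++ part c3 1 ls

lemma c_inj {l l' : Lab} (h1 : c1 l = c1 l') (h2 : c2 l = c2 l') : l = l' := by
  revert h1 h2
  cases l <;> cases l' <;> simp [c1, c2]

lemma part_inj {ls ls' : List Lab} (hlen : ls.length = ls'.length)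
    (h1 : part c1 1 ls = part c1 1 ls') (h2 : part c2 1 ls = part c2 1 ls') : ls = ls' := by
  apply List.ext_getElem hlen
  intro k hk hk'
  apply c_inj
  · rw [← count_part c1 1 ls k hk, ← count_part c1 1 ls' k hk', h1]
  · rw [← count_part c2 1 ls k hk, ← count_part c2 1 ls' k hk', h2]

lemma wd_injOn (n : ℕ) : Set.InjOn wd (acc n .init : Set (List Lab)) := by
  intro ls h ls' h' heq
  rw [Finset.mem_coe, mem_acc] at h h'
  obtain ⟨hl, ha⟩ := h
  obtain ⟨hl', ha'⟩ := h'
  obtain ⟨b, c, T⟩ := trip_of_acc ls ha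
  obtain ⟨b', c', T'⟩ := trip_of_acc ls' ha'
  have e1 := T.runs
  have e2 := T'.runs
  unfold wd at heq
  rw [heq, e2] at e1
  simp only [List.cons.injEq, and_true] at e1
  exact part_inj (hl.trans hl'.symm) e1.1.symm e1.2.1.symm

lemma flat3_eq (n : ℕ) : flat3 n = wd '' (acc n .init : Set (List Lab)) := by
  ext w
  constructor
  · intro hw
    obtain ⟨r1, r2, r3, b, c, rfl, T⟩ := exists_trip hw
    obtain ⟨ls, hlen, hacc, h1, h2, h3⟩ := acc_of_trip T
    refine ⟨ls, ?_, ?_⟩
    · rw [Finset.mem_coe, mem_acc]; exact ⟨hlen, hacc⟩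
    · unfold wd; rw [h1, h2, h3]
  · rintro ⟨ls, hls, rfl⟩
    rw [Finset.mem_coe, mem_acc] at hls
    obtain ⟨b, c, T⟩ := trip_of_acc ls hls.2
    rw [hls.1] at T
    exact T.mem_flat3

theorem ncard_flat3 (n : ℕ) (hn : 1 ≤ n) : (flat3 n).ncard = rhs n := by
  rw [flat3_eq, (wd_injOn n).ncard_image, Set.ncard_coe_finset, card_acc_init n hn]

theorem flat3_finite (n : ℕ) : (flat3 n).Finite := by
  rw [flat3_eq]
  exact (Finset.finite_toSet _).image _

/-- The second double sum is positive exactly from `n = 5` on. -/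
lemma second_sum_eq_zero_iff (n : ℕ) (hn : 1 ≤ n) :
    (∑ k ∈ Finset.Icc 2 (n - 1), (n - 1).choose k *
      ∑ j ∈ Finset.Icc 2 (n - 1 - k), (n - 1 - k).choose j) = 0 ↔ n ≤ 4 := by
  constructor
  · intro h
    by_contra hcon
    rw [Finset.sum_eq_zero_iff] at h
    have h2 := h 2 (by simp; omega)
    rw [Nat.mul_eq_zero] at h2
    rcases h2 with h2 | h2
    · rw [Nat.choose_eq_zero_iff] at h2; omega
    · rw [Finset.sum_eq_zero_iff] at h2
      have h3 := h2 2 (by simp; omega)
      rw [Nat.choose_eq_zero_iff] at h3; omega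
  · intro h
    interval_cases n <;> decide

end Pool.Agent.Lib.MP_793dac_co
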